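import Pool.Agent.Helper13.WD.Defs
import Pool.Agent.Helper30.CR.HT

/-!
The definitions of `WD.Defs`, and those of the proofs.
-/

universe u v w

open CategoryTheory

namespace Pool.Agent.Helper13.WD

open Pool.Agent.Helper10 SmProjVar

variable {k : Type u} [Field k] {K : Type v} [Field K] {H : SmProjVar k → Type w}
  [∀ X, Ring (H X)] [∀ X, Algebra K (H X)]

/-- the data, in the form of the proofs -/
def toData (W : Cohomology k K H) : CohomologyData.{u, v, w} k K where
  H := H
  gr := W.gr
  pull := W.pull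
  tr := W.tr
  cy := W.cy
  inter := W.inter

/-- the theory, in the form of the proofs -/
def toWeil [CharZero K] (W : Cohomology k K H) (h : IsWeil W) : WeilCohomology.{u, v, w} k K where
  toCohomologyData := toData W
  graded X := ⟨(h.graded X).1, (h.graded X).2, (h.graded X).3, (h.graded X).4, (h.graded X).5,
    (h.graded X).6, (h.graded X).7⟩
  pull_hom f := ⟨(h.pull_hom f).1, (h.pull_hom f).2, (h.pull_hom f).3, (h.pull_hom f).4,
    (h.pull_hom f).5⟩
  pull_id := h.pull_id
  pull_comp := h.pull_comp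
  trace X := ⟨(h.trace X).1, (h.trace X).2, (h.trace X).3, (h.trace X).4, (h.trace X).5⟩
  kunneth := h.kunneth
  tr_prod := h.tr_prod
  cycleClasses := ⟨h.cycleClasses.1, h.cycleClasses.2, h.cycleClasses.3, h.cycleClasses.4,
    h.cycleClasses.5, h.cycleClasses.6, h.cycleClasses.7, h.cycleClasses.8⟩

lemma power_eq (X : SmProjVar k) (n : ℕ) : power X n = X.selfProd n := by
  induction n with
  | zero => rfl
  | succ n ih =>
    show (power X n).prod X = (X.selfProd n).prod X
    rw [ih]

lemma totalDim_eq (W : Cohomology k K H) (X : SmProjVar k) :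
    totalDim W X = Module.finrank K (H X) := by
  unfold totalDim spanRank
  rw [Submodule.span_univ]
  exact finrank_top K (H X)

lemma tateClasses_eq (W : Cohomology k K H) (X : SmProjVar k) :
    Submodule.span K (tateClasses W X) =
      Pool.Agent.Helper30.CR.HT.tateClasses (toData W) X := by
  refine congrArg (Submodule.span K) (Set.ext fun z => ?_)
  constructor
  · rintro ⟨j, F, hF, hz, N, hN⟩
    exact ⟨j, N, F, hF, hz, hN⟩
  · rintro ⟨j, N, F, hF, hz, hN⟩
    exact ⟨j, F, hF, hz, N, hN⟩

lemma tateRank_eq (W : Cohomology k K H) (X : SmProjVar k) :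
    tateRank W X = Module.finrank K (Pool.Agent.Helper30.CR.HT.tateClasses (toData W) X) := by
  unfold tateRank spanRank
  rw [tateClasses_eq]
  rfl

/-- The 51 percent Tate conjecture. -/
theorem fiftyOne :
    (∀ (k : Type u) [Field k] [Finite k] (K : Type v) [Field K] [CharZero K]
      (H : SmProjVar k → Type w) [∀ X, Ring (H X)] [∀ X, Algebra K (H X)]
      (W : Cohomology k K H), IsWeil W → ∀ ε : ℝ, 0 < ε →
        (∀ X, (1 / 2 + ε) * tateRank W X ≤ cycRank W X) →
          ∀ X, TateConjecture W X ∧ StandardD W X ∧ IsFrobeniusSemisimple W X) ∧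
    (∀ b : ℕ, ∃ C t : ℝ, 0 < t ∧
      ∀ (k : Type u) [Field k] [Finite k] (K : Type v) [Field K] [CharZero K]
        (H : SmProjVar k → Type w) [∀ X, Ring (H X)] [∀ X, Algebra K (H X)]
        (W : Cohomology k K H), IsWeil W → ∀ X : SmProjVar k, totalDim W X ≤ b →
          ∀ m : ℕ, (1 / 2 + C / ((m : ℝ) + 2) ^ t) * tateRank W (power X m) <
            cycRank W (power X m) → TateConjecture W X ∧ StandardD W X) := by
  obtain ⟨h1, h2⟩ := Pool.Agent.Helper30.CR.HT.main.{u, v, w}
  refine ⟨fun k _ _ K _ _ H _ _ W hW ε hε h X => ?_, fun b => ?_⟩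
  · obtain ⟨h3, h4, h5⟩ := h1 k K (toWeil W hW) ε hε (fun Y => by
      have h6 := h Y
      rw [tateRank_eq] at h6
      exact h6) X
    exact ⟨(tateClasses_eq W X).trans h3, h4, fun F hF φ hφ => h5 F φ hF hφ⟩
  · obtain ⟨C, t, ht, h3⟩ := h2 b
    refine ⟨C, t, ht, fun k _ _ K _ _ H _ _ W hW X hX m hm => ?_⟩
    rw [power_eq, tateRank_eq] at hm
    rw [totalDim_eq] at hX
    obtain ⟨h4, h5⟩ := h3 k K (toWeil W hW) X hX m hm
    exact ⟨(tateClasses_eq W X).trans h4, h5⟩

end Pool.Agent.Helper13.WD
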