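import Pool.Agent.Helper13.WD.Num
import Pool.Agent.Helper13.WD.Conv
import Pool.Agent.Helper13.P2.WLevel

/-!
The zero-one law with the definitions of `WD.Defs` and `WD.Num`.
-/

universe u v w

open CategoryTheory

namespace Pool.Agent.Helper13.WD

open Pool.Agent.Helper10 SmProjVar

/-- The zero-one law. -/
theorem zeroOne :
    (∀ (k : Type u) [Field k] (K : Type v) [Field K] [CharZero K]
      (H : SmProjVar k → Type w) [∀ X, Ring (H X)] [∀ X, Algebra K (H X)]
      (W : Cohomology k K H), IsWeil W →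
        ((∀ X, StandardD W X) ↔ ∃ ε : ℝ, 0 < ε ∧ ∀ X, ε * cycRank W X ≤ numCycRank W X)) ∧
    ∀ b r : ℕ, ∃ C t : ℝ, 0 < C ∧ 0 < t ∧
      ∀ (k : Type u) [Field k] (K : Type v) [Field K] [CharZero K]
        (H : SmProjVar k → Type w) [∀ X, Ring (H X)] [∀ X, Algebra K (H X)]
        (W : Cohomology k K H), IsWeil W → ∀ X : SmProjVar k, totalDim W X ≤ b →
          ∀ n : ℕ, C * cycRank W (power X n) < numCycRank W (power X n) * ((n : ℝ) + 2) ^ t →
            StandardD W (power X r) := by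
  refine ⟨fun k _ K _ _ H _ _ W hW => ?_, fun b r => ?_⟩
  · constructor
    · intro h
      refine ⟨1, one_pos, fun Y => ?_⟩
      rw [one_mul]
      exact le_of_eq (congrArg Nat.cast
        (Pool.Agent.Helper59.ZP.numCycRank_eq_of_standardD (toWeil W hW) (h Y)).symm)
    · rintro ⟨ε, hε, h⟩
      exact (Pool.Agent.Helper13.P2.all_iff_powers (W := toWeil W hW)).mpr
        ⟨fun _ => ε, Pool.Agent.Helper10.PR.slowerThanPowers_const hε, h⟩
  · obtain ⟨C, t, hC, ht, h⟩ := Pool.Agent.Helper13.P2.one_power_poly.{u, v, w} b r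
    refine ⟨C, t, hC, ht, fun k _ K _ _ H _ _ W hW X hX n hn => ?_⟩
    rw [power_eq] at hn ⊢
    rw [totalDim_eq] at hX
    exact h k K (toWeil W hW) X hX n hn

end Pool.Agent.Helper13.WD
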