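import Pool.Agent.Helper10.SmProj

/-!
# Weil cohomology theories, the standard conjecture D, and the ranks of the spaces of cycle classes

Definitions only. `H X` is the total cohomology algebra of the smooth projective variety `X`.
-/

universe u v w

open CategoryTheory TensorProduct AlgebraicGeometry

namespace Pool.Agent.Helper13.WD

open Pool.Agent.Helper10 SmProjVar

section Algebra

variable {K : Type v} [Field K] {A B C : Type w} [Ring A] [Algebra K A] [Ring B] [Algebra K B]
  [Ring C] [Algebra K C]

/-- `gr` makes the finite-dimensional `K`-algebra `A` a graded-commutative graded algebra, with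
`A^i = 0` for `i > 2 n`. -/
structure IsGradedCommAlgebra (gr : ℕ → Submodule K A) (n : ℕ) : Prop where
  finite : Module.Finite K A
  indep : iSupIndep gr
  iSup_eq_top : ⨆ i, gr i = ⊤
  eq_bot : ∀ i, 2 * n < i → gr i = ⊥
  one_mem : 1 ∈ gr 0
  mul_mem : ∀ i j x y, x ∈ gr i → y ∈ gr j → x * y ∈ gr (i + j)
  comm : ∀ i j x y, x ∈ gr i → y ∈ gr j → x * y = (-1 : K) ^ (i * j) • (y * x)

/-- `f` is a homomorphism of graded `K`-algebras. -/
structure IsGradedHom (grA : ℕ → Submodule K A) (grB : ℕ → Submodule K B) (f : A → B) :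
    Prop where
  map_add : ∀ x y, f (x + y) = f x + f y
  map_smul : ∀ (a : K) x, f (a • x) = a • f x
  map_one : f 1 = 1
  map_mul : ∀ x y, f (x * y) = f x * f y
  map_mem : ∀ i, ∀ x ∈ grA i, f x ∈ grB i

/-- `tr : A → K` is linear, zero on `A^i` for `i ≠ 2 n`, an isomorphism `A^{2n} ≅ K`, and the
pairing `(x, y) ↦ tr (x * y)` is perfect (Poincaré duality). -/
structure IsPoincareTrace (gr : ℕ → Submodule K A) (n : ℕ) (tr : A → K) : Prop where
  map_add : ∀ x y, tr (x + y) = tr x + tr y
  map_smul : ∀ a x, tr (a • x) = a * tr x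
  eq_zero : ∀ i x, i ≠ 2 * n → x ∈ gr i → tr x = 0
  bijective : ∀ a, ∃! x, x ∈ gr (2 * n) ∧ tr x = a
  nondegenerate : ∀ x, (∀ y, tr (x * y) = 0) → x = 0

variable (K) in
/-- The linear map `A ⊗ B → C`, `a ⊗ b ↦ f a * g b`, is bijective. -/
def IsKunneth (f : A → C) (g : B → C) : Prop :=
  ∀ m : A ⊗[K] B →ₗ[K] C, (∀ a b, m (a ⊗ₜ b) = f a * g b) → Function.Bijective m

/-- The cup product. -/
def cup {A : Type w} [Ring A] (x y : A) : A := x * y

/-- `x` has degree `i`. -/
def InDegree (gr : ℕ → Submodule K A) (i : ℕ) (x : A) : Prop := x ∈ gr i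

/-- For some `N` the `N`-th power of `f - c` annihilates `x`. -/
def IsGenEigen (f : A → A) (c : K) (x : A) : Prop := ∃ N : ℕ, (fun y => f y - c • y)^[N] x = 0

variable (K) in
/-- The dimension of the `K`-span of `S`. -/
noncomputable def spanRank (S : Set A) : ℕ := Module.finrank K (Submodule.span K S)

variable (K) in
/-- `S` and `T` have the same `K`-span. -/
def SameSpan (S T : Set A) : Prop := Submodule.span K S = Submodule.span K T

variable (K) in
/-- The `K`-linear map `f` is semisimple. -/
def IsSemisimpleMap (f : A → A) : Prop :=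
  ∀ φ : Module.End K A, (∀ x, φ x = f x) → φ.IsSemisimple

end Algebra

/-- The data of a Weil cohomology theory for smooth projective varieties over `k`, with coefficients
in `K` and total cohomology algebras `H X`. -/
structure Cohomology (k : Type u) [Field k] (K : Type v) [Field K] (H : SmProjVar k → Type w)
    [∀ X, Ring (H X)] [∀ X, Algebra K (H X)] where
  /-- `gr X i` is `H^i(X)` -/
  gr : ∀ X, ℕ → Submodule K (H X)
  /-- the pull-back `f^* : H(Y) → H(X)` -/
  pull : ∀ {X Y : SmProjVar k}, (X.toOver ⟶ Y.toOver) → H Y → H X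
  /-- the trace (orientation) map `H^{2 dim X}(X) → K`, extended by `0` to the other degrees -/
  tr : ∀ X, H X → K
  /-- the cycle class map `Z^j(X) → H^{2j}(X)` -/
  cy : ∀ (X : SmProjVar k) (j : ℕ), X.Z j → H X
  /-- the intersection pairing of cycles (intersection numbers) -/
  inter : ∀ (X : SmProjVar k) (i j : ℕ), X.Z i → X.Z j → ℤ

variable {k : Type u} [Field k] {K : Type v} [Field K] {H : SmProjVar k → Type w}
  [∀ X, Ring (H X)] [∀ X, Algebra K (H X)]

/-- The properties of the cycle class map of a Weil cohomology theory. -/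
structure HasCycleClasses (W : Cohomology k K H) : Prop where
  /-- the cycle class map is additive -/
  cy_add : ∀ X j (a b c : X.Z j), (∀ x, c.toCyc.coeff x = a.toCyc.coeff x + b.toCyc.coeff x) →
    W.cy X j c = W.cy X j a + W.cy X j b
  cy_mem : ∀ X j (c : X.Z j), InDegree (W.gr X) (2 * j) (W.cy X j c)
  /-- the class of `X` itself is `1` -/
  cy_fundamental : ∀ X : SmProjVar k, ∃ c : X.Z 0,
    c.toCyc = X.pointCycle X.genericPt ∧ W.cy X 0 c = 1
  /-- the class of a closed point has trace the degree of its residue field over `k` -/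
  tr_point : ∀ (X : SmProjVar k) (x : X.Pt) (c : X.Z X.dim), c.toCyc = X.pointCycle x →
    W.tr X (W.cy X X.dim c) = (X.residueDeg x : K)
  /-- compatibility with push-forward: `cy (f_* c) = f_* (cy c)`, where `f_*` on cohomology is the
  Poincaré dual of `f^*` -/
  cy_push : ∀ {X Y : SmProjVar k} (f : X.toOver ⟶ Y.toOver) (i j : ℕ) (c : X.Z i) (c' : Y.Z j),
    c'.toCyc = pushCycle f c.toCyc →
      ∀ y, W.tr Y (cup (W.cy Y j c') y) = W.tr X (cup (W.cy X i c) (W.pull f y))
  /-- the pull-back of a cycle class is a cycle class -/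
  cy_pull : ∀ {X Y : SmProjVar k} (f : X.toOver ⟶ Y.toOver) (j : ℕ) (c : Y.Z j),
    ∃ c' : X.Z j, W.cy X j c' = W.pull f (W.cy Y j c)
  /-- the product of two cycle classes is a cycle class -/
  cy_mul : ∀ X i j (c : X.Z i) (c' : X.Z j),
    ∃ c'' : X.Z (i + j), W.cy X (i + j) c'' = cup (W.cy X i c) (W.cy X j c')
  /-- the intersection pairing of cycles of complementary codimension is induced by the cup
  product -/
  tr_cy_mul : ∀ X i j (c : X.Z i) (c' : X.Z j), i + j = X.dim →
    W.tr X (cup (W.cy X i c) (W.cy X j c')) = (W.inter X i j c c' : K)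

/-- `W` is a Weil cohomology theory for smooth projective varieties over `k`, with coefficients in
`K`. -/
structure IsWeil (W : Cohomology k K H) : Prop where
  graded : ∀ X : SmProjVar k, IsGradedCommAlgebra (W.gr X) X.dim
  pull_hom : ∀ {X Y : SmProjVar k} (f : X.toOver ⟶ Y.toOver),
    IsGradedHom (W.gr Y) (W.gr X) (W.pull f)
  pull_id : ∀ (X : SmProjVar k) x, W.pull (𝟙 X.toOver) x = x
  pull_comp : ∀ {X Y Z : SmProjVar k} (f : X.toOver ⟶ Y.toOver) (g : Y.toOver ⟶ Z.toOver) x,
    W.pull (f ≫ g) x = W.pull f (W.pull g x)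
  /-- Poincaré duality -/
  trace : ∀ X : SmProjVar k, IsPoincareTrace (W.gr X) X.dim (W.tr X)
  /-- the Künneth formula: `H(X) ⊗ H(Y) ≅ H(X × Y)` -/
  kunneth : ∀ X Y : SmProjVar k, IsKunneth K (W.pull (fst X Y)) (W.pull (snd X Y))
  tr_prod : ∀ X Y x y,
    W.tr (X.prod Y) (cup (W.pull (fst X Y) x) (W.pull (snd X Y) y)) = W.tr X x * W.tr Y y
  cycleClasses : HasCycleClasses W

/-- Grothendieck's standard conjecture D for `X`: numerically equivalent cycles are homologically
equivalent. -/
def StandardD (W : Cohomology k K H) (X : SmProjVar k) : Prop :=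
  ∀ (j : ℕ) (a b : X.Z j),
    (∀ i, j + i = X.dim → ∀ c, W.inter X j i a c = W.inter X j i b c) → W.cy X j a = W.cy X j b

/-- The classes of algebraic cycles in `H(X)`. -/
def cycleClasses (W : Cohomology k K H) (X : SmProjVar k) : Set (H X) :=
  {z | ∃ j c, z = W.cy X j c}

/-- The dimension `a(X)` of the `K`-span of the classes of algebraic cycles in `H(X)`. -/
noncomputable def cycRank (W : Cohomology k K H) (X : SmProjVar k) : ℕ :=
  spanRank K (cycleClasses W X)

/-- The total dimension `dim H(X)`. -/
noncomputable def totalDim (_ : Cohomology k K H) (X : SmProjVar k) : ℕ :=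
  spanRank K (Set.univ : Set (H X))

/-- `F` is the Frobenius endomorphism of the scheme `X` (for `q`-th powers): for all rings `R` on which
`φ(r) = r ^ q` is a ring homomorphism, `F` maps every `R`-valued point `a` of `X` to `a ∘ Spec φ`. -/
def IsFrobenius (q : ℕ) {X : Scheme.{u}} (F : X ⟶ X) : Prop :=
  ∀ (R : Type u) [CommRing R] (φ : R →+* R) (a : Spec (CommRingCat.of R) ⟶ X),
    (∀ r, φ r = r ^ q) → a ≫ F = Spec.map (CommRingCat.ofHom φ) ≫ a

/-- The Tate classes in `H(X)`, i.e. the classes in the `H^{2 j}(X)` which are annihilated by a power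
of `F^* - q ^ j`, where `F` is the Frobenius endomorphism over the field `k` with `q` elements. -/
def tateClasses (W : Cohomology k K H) (X : SmProjVar k) : Set (H X) :=
  {z | ∃ (j : ℕ) (F : X.toOver ⟶ X.toOver), IsFrobenius (Nat.card k) F.left ∧
    InDegree (W.gr X) (2 * j) z ∧ IsGenEigen (W.pull F) ((Nat.card k : K) ^ j) z}

/-- The dimension of the `K`-span `T(X)` of the Tate classes in `H(X)`. -/
noncomputable def tateRank (W : Cohomology k K H) (X : SmProjVar k) : ℕ :=
  spanRank K (tateClasses W X)

/-- The Tate classes and the classes of algebraic cycles have the same `K`-span. -/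
def TateConjecture (W : Cohomology k K H) (X : SmProjVar k) : Prop :=
  SameSpan K (tateClasses W X) (cycleClasses W X)

/-- The Frobenius endomorphism acts semisimply on `H(X)`. -/
def IsFrobeniusSemisimple (W : Cohomology k K H) (X : SmProjVar k) : Prop :=
  ∀ F : X.toOver ⟶ X.toOver, IsFrobenius (Nat.card k) F.left → IsSemisimpleMap K (W.pull F)

/-- `power X n` is the product `X ^ (n + 1)` of `n + 1` copies of `X`. -/
noncomputable def power (X : SmProjVar k) (n : ℕ) : SmProjVar k := Nat.rec X (fun _ Y => Y.prod X) n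

end Pool.Agent.Helper13.WD
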