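import Pool.Agent.Helper13.WD.Defs

/-!
# Numerical equivalence: definitions
-/

universe u v w

open CategoryTheory

namespace Pool.Agent.Helper13.WD

open Pool.Agent.Helper10 SmProjVar

/-- The elements of the span of `S` which are orthogonal to the span of `S` for the form
`(x, y) ↦ tr (x * y)`. -/
def nullSet {K : Type v} [Field K] {A : Type w} [Ring A] [Algebra K A] (tr : A → K) (S : Set A) :
    Set A :=
  {x | x ∈ Submodule.span K S ∧ ∀ y ∈ Submodule.span K S, tr (x * y) = 0}

/-- The dimension `n(X)` of the span of the classes of algebraic cycles modulo the classes orthogonal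
to all classes of algebraic cycles, i.e. modulo numerical equivalence. -/
noncomputable def numCycRank {k : Type u} [Field k] {K : Type v} [Field K]
    {H : SmProjVar k → Type w} [∀ X, Ring (H X)] [∀ X, Algebra K (H X)] (W : Cohomology k K H)
    (X : SmProjVar k) : ℕ :=
  cycRank W X - spanRank K (nullSet (W.tr X) (cycleClasses W X))

end Pool.Agent.Helper13.WD
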